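import Pool.Agent.H167R3.NR.Defs
import Pool.Agent.H429R4.GC.Vis
import Pool.Agent.H429R4.GC.Blocks
import Pool.Agent.H525R2.Sym.Main

set_option autoImplicit false
set_option linter.unusedSectionVars false

/-!
# All right-hand sides give the same tables, up to a sign change
-/

namespace Pool.Agent.H167R3.NR

open Matrix Finset
open Pool.Agent.H525R2
open Pool.Agent.H525R2.Sym (Clause Satisfiable bits IsThreeCNF change Holds)
open Pool.Agent.H429R4.Sem (Circuit Formula flip flip_zero flip_add sysF flip_sysF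
  change_eq_of_view)
open Pool.Agent.H429R4.GC (value view wirings numWirings IsAction fixer vfixer mem_vfixer vfixer_le
  value_shift stab mem_stab visible mem_visible card_visible_le pre pre_view pre_pre pre_id)

variable {V Y D L : Type} [DecidableEq V] {n M : ℕ} (ι : Fin 3 × Fin n ↪ V)
  (lin : (Fin 3 × Fin n → ZMod 2) →+ (V → ZMod 2))

/-- The action of the sign changes `lin u`, which fixes the guessed bits. -/
def act (u : Fin 3 × Fin n → ZMod 2) (p : Formula V × (Y → Bool)) : Formula V × (Y → Bool) :=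
  (flip (lin u) p.1, p.2)

theorem isAction_act : IsAction (act (Y := Y) lin) where
  zero p := by
    unfold act
    rw [map_zero, flip_zero]
  add u u' p := by
    unfold act
    rw [map_add, flip_add]

theorem act_comp (u u' : Fin 3 × Fin n → ZMod 2) :
    act (Y := Y) lin u' ∘ act lin u = act lin (u + u') := by
  funext p
  rw [add_comm, (isAction_act lin).add]
  rfl

theorem isAction_pre : IsAction fun (u : Fin 3 × Fin n → ZMod 2)
    (ξ : Option (Formula V × (Y → Bool) → Bool) × Multiset (L × (Formula V × (Y → Bool) → D))) =>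
      pre (act lin u) ξ where
  zero ξ := by
    have h : act (Y := Y) lin 0 = id := funext (isAction_act lin).zero
    simp only [h, pre_id]
  add u u' ξ := by
    simp only [pre_pre, act_comp, add_comm u]

/-- The vectors that a circuit may see. -/
noncomputable def vis (C : Circuit (Clause V ⊕ Y) D L) : Finset (Fin 3 × Fin n → ZMod 2) :=
  visible (isAction_pre (Y := Y) (D := D) (L := L) lin)
    (wirings inputs C (Set.range (act lin)))

theorem wirings_finite (C : Circuit (Clause V ⊕ Y) D L) :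
    (wirings inputs C (Set.range (act (Y := Y) lin))).Finite := by
  have := C.finite
  have h1 : wirings inputs C (Set.range (act (Y := Y) lin)) =
      Set.range fun p : C.Gate × (Fin 3 × Fin n → ZMod 2) => view inputs C p.1 (act lin p.2) := by
    ext ξ
    constructor
    · rintro ⟨g, f, ⟨u, rfl⟩, rfl⟩
      exact ⟨(g, u), rfl⟩
    · rintro ⟨⟨g, u⟩, rfl⟩
      exact ⟨g, _, ⟨u, rfl⟩, rfl⟩
  rw [h1]
  exact Set.finite_range _

theorem card_vis_le (C : Circuit (Clause V ⊕ Y) D L) :
    (vis lin C).card ≤ numWirings inputs C (Set.range (act (Y := Y) lin)) := by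
  refine card_visible_le _ _ (wirings_finite lin C) ?_
  rintro _ ⟨g, f, ⟨u', rfl⟩, rfl⟩ u
  refine ⟨g, _, ⟨u' + u, rfl⟩, ?_⟩
  rw [pre_view, act_comp, add_comm]

variable (hlin : ∀ u p, lin u (ι p) = u p)

include hlin in
theorem act_sysF (w : Y → Bool) (y : Fin M → Fin 3 → Fin n) (u : Fin 3 × Fin n → ZMod 2)
    (b : Fin M → ZMod 2) : act lin u (sysF ι y b, w) = (sysF ι y (b + Sym.mat y *ᵥ u), w) := by
  unfold act
  rw [flip_sysF]
  congr 2
  congr 2
  funext p
  exact hlin u p

include hlin in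
theorem sys_local (w : Y → Bool) (y : Fin M → Fin 3 → Fin n) (β : Clause V ⊕ Y)
    (b τ : Fin M → ZMod 2)
    (h : ∀ j, τ j ≠ 0 → ∃ u, (∀ p : Formula V × (Y → Bool),
      inputs (act lin u p) β = inputs p β) ∧ (Sym.mat y *ᵥ u) j ≠ 0) :
    inputs (sysF ι y (b + τ), w) β = inputs (sysF ι y b, w) β := by
  rcases β with c | v
  · change bits (sysF ι y (b + τ)).1 c = bits (sysF ι y b).1 c
    by_cases hc : IsThreeCNF {c}
    · refine Sym.inst_local ι c b τ fun j hj => ?_
      obtain ⟨u, hu, hu'⟩ := h j hj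
      refine ⟨fun p => lin u (ι p), Sym.changePerm (lin u), Sym.cmp_change ι (lin u), ?_, ?_⟩
      · rw [Sym.changePerm_apply]
        apply change_eq_of_view hc
        funext φ
        rw [flip_zero]
        exact hu (φ, fun _ => false)
      · have h1 : (fun p => lin u (ι p)) = u := funext fun p => hlin u p
        rw [h1]
        exact hu'
    · have hno : ∀ b, bits (sysF ι y b).1 c = false := by
        intro b
        unfold bits
        rw [decide_eq_false_iff_not]
        intro hcon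
        apply hc
        intro c' hc'
        rw [mem_singleton] at hc'
        rw [hc']
        exact (sysF ι y b).2 c hcon
      rw [hno, hno]
  · rfl

include hlin in
/-- For good left-hand sides the tables for all right-hand sides are the same, up to a sign
change of the formula. -/
theorem exists_shift_table (C : Circuit (Clause V ⊕ Y) D L) {y : Fin M → Fin 3 → Fin n} {t : ℕ}
    (ht : 1 < t) (hy : Sym.Good t (vis lin C) y) (b b' : Fin M → ZMod 2) :
    ∃ u₀ : Fin 3 × Fin n → ZMod 2,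
      table C (sysF ι y (b + Sym.mat y *ᵥ u₀)) = table C (sysF ι y b') := by
  classical
  set A := Sym.mat y with hA
  have hmid : ∀ g, ∀ x : Fin M → ZMod 2, t ≤ hammingNorm x → hammingNorm x < 2 * t →
      ∃ u ∈ vfixer (isAction_act (Y := Y) lin) inputs C g, (x ᵥ* A) ⬝ᵥ u ≠ 0 := by
    intro g x h1 h2
    have h3 := hy.2 x h1 h2
    unfold vis at h3
    rw [mem_visible] at h3
    push Not at h3
    have h0 : act (Y := Y) lin 0 = id := funext (isAction_act lin).zero
    obtain ⟨u, hu, hne⟩ := h3 (view inputs C g id) ⟨g, _, ⟨0, rfl⟩, by rw [h0]⟩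
    refine ⟨u, ?_, hne⟩
    rw [mem_stab, pre_view] at hu
    rw [mem_vfixer]
    exact hu
  have hinv : Sym.Inv A t (⊤ : Submodule (ZMod 2) (Fin 3 × Fin n → ZMod 2)) (b + b') := by
    intro x hx hx'
    by_cases h0 : x = 0
    · rw [h0, zero_dotProduct]
    · exfalso
      apply hy.1 x h0 hx
      funext p
      have := hx' (Pi.single p 1) trivial
      rwa [dotProduct_single_one] at this
  obtain ⟨u₀, -, hu₀⟩ := Sym.exists_shift (lt_trans one_pos ht)
    (H' := fixer (isAction_act (Y := Y) lin) (value inputs C C.out)) (fun x hx1 hx2 => by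
      obtain ⟨u, hu, hne⟩ := hmid C.out x hx1 hx2
      exact ⟨u, vfixer_le (isAction_act lin) inputs C C.out hu, hne⟩) hinv
  refine ⟨u₀, funext fun w => ?_⟩
  have h := value_shift (isAction_act (Y := Y) lin) inputs C A (fun b => (sysF ι y b, w))
    (fun u b => act_sysF ι lin hlin w y u b) ht
    (fun β b τ => sys_local ι lin hlin w y β b τ) hmid C.out _ (b + A *ᵥ u₀) hu₀
  have e : b + A *ᵥ u₀ + (b + b' + A *ᵥ u₀) = b' := by
    funext i
    simp only [Pi.add_apply]
    generalize b i = b1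
    generalize b' i = b2
    generalize (A *ᵥ u₀) i = b3
    revert b1 b2 b3
    decide
  rw [e] at h
  exact h.symm

/-- The formula expresses the system of equations. -/
theorem holds_sysF_iff (y : Fin M → Fin 3 → Fin n) (b : Fin M → ZMod 2) (α : V → ZMod 2) :
    (∀ c ∈ (sysF ι y b).1, Holds α c) ↔ ∀ j, ∑ a, α (ι (a, y j a)) = b j := by
  change (∀ c ∈ Sym.sys ι y b, Holds α c) ↔ _
  constructor
  · intro h j
    by_contra hne
    have h1 : ∑ a, α (ι (a, y j a)) = b j + 1 := by
      revert hne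
      generalize ∑ a, α (ι (a, y j a)) = v₁
      generalize b j = v₂
      revert v₁ v₂
      decide
    have h2 := h (Sym.clauseOf ι (y j) fun a => α (ι (a, y j a)))
      ((Sym.mem_sys ι).2 ⟨j, _, h1, rfl⟩)
    obtain ⟨l, hl, hl'⟩ := h2
    rw [Sym.mem_clauseOf] at hl
    obtain ⟨a, rfl⟩ := hl
    simp at hl'
  · intro h c hc
    rw [Sym.mem_sys] at hc
    obtain ⟨j, p, hp, rfl⟩ := hc
    have h1 : ∃ a, α (ι (a, y j a)) ≠ p a := by
      by_contra hcon
      push Not at hcon
      have h2 := h j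
      rw [sum_congr rfl fun a _ => hcon a, hp] at h2
      simp at h2
    obtain ⟨a, ha⟩ := h1
    refine ⟨_, (Sym.mem_clauseOf ι).2 ⟨a, rfl⟩, ?_⟩
    change α (ι (a, y j a)) = p a + 1
    revert ha
    generalize α (ι (a, y j a)) = v₁
    generalize p a = v₂
    revert v₁ v₂
    decide

include hlin in
theorem satisfiable_mat (y : Fin M → Fin 3 → Fin n) (u : Fin 3 × Fin n → ZMod 2) :
    Satisfiable (sysF ι y (Sym.mat y *ᵥ u)).1 := by
  refine ⟨lin u, (holds_sysF_iff ι y _ _).2 fun j => ?_⟩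
  rw [Sym.mat_mulVec]
  exact sum_congr rfl fun a _ => hlin u _

include hlin in
/-- For good left-hand sides no right-hand sides are refuted. -/
theorem not_refuted (C : Circuit (Clause V ⊕ Y) D L) {y : Fin M → Fin 3 → Fin n} {t : ℕ}
    (ht : 1 < t) (hy : Sym.Good t (vis lin C) y) (Acc : ((Y → Bool) → D) → Prop)
    (hsound : ∀ φ : Formula V, Satisfiable φ.1 → ¬ Acc (table C φ)) (b : Fin M → ZMod 2) :
    ¬ Acc (table C (sysF ι y b)) := by
  obtain ⟨u₀, hu₀⟩ := exists_shift_table ι lin hlin C ht hy 0 b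
  rw [zero_add] at hu₀
  rw [← hu₀]
  exact hsound _ (satisfiable_mat ι lin hlin y u₀)

open Classical in
/-- Most lists of left-hand sides are good. -/
theorem card_bad_vis_le {Δ m n : ℕ} (lin : (Fin 3 × Fin n → ZMod 2) →+ (V → ZMod 2))
    (hΔ : 0 < Δ) (hm : 2 ≤ m) (hn : 256 * m ^ 2 * Δ ^ 2 ≤ n)
    (C : Circuit (Clause V ⊕ Y) D L)
    (hW : numWirings inputs C (Set.range (act (Y := Y) lin)) ≤ 2 ^ (n / (256 * m ^ 2 * Δ ^ 2))) :
    ∃ t, 2 < t ∧ ((univ.filter fun y : Fin (Δ * n) → Fin 3 → Fin n =>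
      ¬ Sym.Good t (vis lin C) y).card : ℝ) ≤
        32 / m * Fintype.card (Fin (Δ * n) → Fin 3 → Fin n) := by
  set q₀ := 64 * m ^ 2 * Δ ^ 2 with hq₀
  have hq : 256 * m ^ 2 * Δ ^ 2 = q₀ * 4 := by
    rw [hq₀]
    ring
  rw [hq] at hn hW
  have hm0 : 0 < m := by omega
  have hq0 : 0 < q₀ := by
    rw [hq₀]
    positivity
  have hn0 : 0 < n := by
    have : 0 < q₀ * 4 := by positivity
    omega
  set t := n / q₀ with ht
  have ht4 : 4 ≤ t := (Nat.le_div_iff_mul_le hq0).2 (by rw [mul_comm]; exact hn)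
  have hqt : q₀ * t ≤ n := Nat.mul_div_le n q₀
  have hm' : (0 : ℝ) < m := by exact_mod_cast hm0
  have hV : m * (vis lin C).card ≤ m ^ t := by
    have h1 : (vis lin C).card ≤ 2 ^ (t - 1) := by
      refine (card_vis_le lin C).trans (hW.trans (Nat.pow_le_pow_right (by norm_num) ?_))
      rw [← Nat.div_div_eq_div_mul, ← ht]
      omega
    have h2 : (vis lin C).card ≤ m ^ (t - 1) :=
      h1.trans (Nat.pow_le_pow_left hm _)
    calc m * (vis lin C).card ≤ m * m ^ (t - 1) := Nat.mul_le_mul_left m h2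
      _ = m ^ t := by
        rw [← pow_succ']
        congr 1
        omega
  refine ⟨t, by omega, ?_⟩
  have hbad := Sym.card_bad_le (Δ := Δ) (m := m) (M := Δ * n) (δ := 32 / m) rfl hn0 hm
    (by omega : 0 < t) (by rw [div_mul_cancel₀ _ hm'.ne']) (by rw [← hq₀]; exact hqt)
    (vis lin C) hV
  rw [card_univ] at hbad
  exact hbad

/-- A circuit with few wirings refutes few systems. -/
theorem card_refuted_le {Δ m n : ℕ} (ι : Fin 3 × Fin n ↪ V)
    (lin : (Fin 3 × Fin n → ZMod 2) →+ (V → ZMod 2)) (hlin : ∀ u p, lin u (ι p) = u p)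
    (hΔ : 0 < Δ) (hm : 2 ≤ m) (hn : 256 * m ^ 2 * Δ ^ 2 ≤ n)
    (C : Circuit (Clause V ⊕ Y) D L)
    (hW : numWirings inputs C (Set.range (act (Y := Y) lin)) ≤ 2 ^ (n / (256 * m ^ 2 * Δ ^ 2)))
    (Acc : ((Y → Bool) → D) → Prop)
    (hsound : ∀ φ : Formula V, Satisfiable φ.1 → ¬ Acc (table C φ)) :
    ({y : Fin (Δ * n) → Fin 3 → Fin n | ∃ b, Acc (table C (sysF ι y b))}.ncard : ℝ) ≤
      32 / m * Fintype.card (Fin (Δ * n) → Fin 3 → Fin n) := by
  classical
  obtain ⟨t, ht, hbad⟩ := card_bad_vis_le lin hΔ hm hn C hW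
  refine le_trans ?_ hbad
  have h1 : {y : Fin (Δ * n) → Fin 3 → Fin n | ∃ b, Acc (table C (sysF ι y b))}.ncard ≤
      (univ.filter fun y : Fin (Δ * n) → Fin 3 → Fin n => ¬ Sym.Good t (vis lin C) y).card := by
    rw [← Set.ncard_coe_finset]
    refine Set.ncard_le_ncard ?_ (Set.toFinite _)
    rintro y ⟨b, hb⟩
    rw [mem_coe, mem_filter]
    refine ⟨mem_univ _, fun hgood => ?_⟩
    exact not_refuted ι lin hlin C (by omega : 1 < t) hgood Acc hsound b hb
  exact_mod_cast h1

theorem good_injective {y : Fin M → Fin 3 → Fin n} {t : ℕ} (ht : 2 < t)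
    (hy : ∀ x : Fin M → ZMod 2, x ≠ 0 → hammingNorm x < t → x ᵥ* Sym.mat y ≠ 0) :
    Function.Injective y := by
  classical
  intro j j' h
  by_contra hjj
  refine hy (Pi.single j 1 + Pi.single j' 1) ?_ ?_ ?_
  · intro h0
    have := congrFun h0 j
    rw [Pi.add_apply, Pi.single_eq_same, Pi.single_eq_of_ne hjj] at this
    simp at this
  · refine lt_of_le_of_lt ?_ ht
    unfold hammingNorm
    refine le_trans (card_le_card (t := {j, j'}) fun i hi => ?_) (card_le_two)
    rw [mem_insert, mem_singleton]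
    by_contra hcon
    rw [not_or] at hcon
    rw [mem_filter, Pi.add_apply, Pi.single_eq_of_ne hcon.1, Pi.single_eq_of_ne hcon.2] at hi
    simp at hi
  · rw [Matrix.add_vecMul, single_one_vecMul, single_one_vecMul]
    have h1 : Sym.mat y j = Sym.mat y j' := by
      funext p
      unfold Sym.mat
      rw [h]
    have h2 : (Sym.mat y).row j = (Sym.mat y).row j' := h1
    rw [h2, Sym.add_self_fun]

/-- Some formula that is far from satisfiable is not refuted. -/
theorem exists_far_not_refuted {ε : ℝ} (hε : 0 < ε) {Δ n : ℕ} (ι : Fin 3 × Fin n ↪ V)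
    (lin : (Fin 3 × Fin n → ZMod 2) →+ (V → ZMod 2)) (hlin : ∀ u p, lin u (ι p) = u p)
    (hΔ : 0 < Δ) (hΔε : 2 / ε ^ 2 ≤ Δ) (hn : 256 * 64 ^ 2 * Δ ^ 2 ≤ n)
    (C : Circuit (Clause V ⊕ Y) D L)
    (hW : numWirings inputs C (Set.range (act (Y := Y) lin)) ≤ 2 ^ (n / (256 * 64 ^ 2 * Δ ^ 2)))
    (Acc : ((Y → Bool) → D) → Prop)
    (hsound : ∀ φ : Formula V, Satisfiable φ.1 → ¬ Acc (table C φ)) :
    ∃ φ : Formula V, 0 < φ.1.card ∧
      (∀ α, (Sym.numTrue α φ.1 : ℝ) ≤ (7 / 8 + ε) * φ.1.card) ∧ ¬ Acc (table C φ) := by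
  classical
  have hn0 : 0 < n := lt_of_lt_of_le (by positivity) hn
  obtain ⟨t, ht, hbad⟩ := card_bad_vis_le lin hΔ (by norm_num : 2 ≤ 64) hn C hW
  have hYcard : 0 < Fintype.card (Fin (Δ * n) → Fin 3 → Fin n) :=
    Fintype.card_pos_iff.2 ⟨fun _ _ => ⟨0, hn0⟩⟩
  obtain ⟨y, hy⟩ : ∃ y : Fin (Δ * n) → Fin 3 → Fin n, Sym.Good t (vis lin C) y := by
    by_contra hcon
    push Not at hcon
    have h1 : (univ.filter fun y : Fin (Δ * n) → Fin 3 → Fin n =>
        ¬ Sym.Good t (vis lin C) y) = univ := filter_true_of_mem fun y _ => hcon y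
    rw [h1, card_univ] at hbad
    have h2 : (0 : ℝ) < Fintype.card (Fin (Δ * n) → Fin 3 → Fin n) := by exact_mod_cast hYcard
    have h3 : (32 : ℝ) / (64 : ℕ) = 1 / 2 := by norm_num
    rw [h3] at hbad
    linarith
  obtain ⟨b, hb⟩ := Sym.exists_far (Sym.mat y) hε (by
    rw [Fintype.card_prod, Fintype.card_fin, Fintype.card_fin]
    exact Sym.two_pow_mul_exp_lt (Δ := Δ) rfl hn0 hΔε hε)
  have hinj := good_injective ht hy.1
  have hcard : (sysF ι y b).1.card = 4 * (Δ * n) := Sym.card_sys ι hinj b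
  refine ⟨sysF ι y b, ?_, fun α => ?_, not_refuted ι lin hlin C (by omega) hy Acc hsound b⟩
  · rw [hcard]
    positivity
  · rw [hcard]
    have h1 : (Sym.numTrue α (sysF ι y b).1 : ℝ) ≤ 3 * (Δ * n : ℕ) +
        ((univ.filter fun j => (Sym.mat y *ᵥ fun p => α (ι p)) j = b j).card : ℝ) := by
      exact_mod_cast Sym.numTrue_le ι y b α
    have h2 := hb fun p => α (ι p)
    have h3 : (0 : ℝ) < (Δ * n : ℕ) := by
      have : 0 < Δ * n := by positivity
      exact_mod_cast this
    push_cast at h1 h2 h3 ⊢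
    nlinarith

end Pool.Agent.H167R3.NR
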