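import Pool.Agent.H429R4.GC.Defs

set_option autoImplicit false

/-!
# Circuits that read a formula and guessed bits: definitions
-/

namespace Pool.Agent.H167R3.NR

open Pool.Agent.H525R2.Sym (Clause Satisfiable bits)
open Pool.Agent.H429R4.Sem (Circuit Formula flip)

variable {V Y D L : Type} [DecidableEq V]

/-- The input bits that describe a 3-CNF formula and guessed bits: there is one input bit for every
clause, which tells whether the clause is in the formula, and one input bit for every element
of `Y`. -/
def inputs (p : Formula V × (Y → Bool)) : Clause V ⊕ Y → Bool := Sum.elim (bits p.1.1) p.2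

/-- The transformations of the inputs given by a group of sign changes, which acts on the guessed
bits by the permutations `σ`. -/
def moves {Γ : AddSubgroup (V → ZMod 2)} (σ : Γ → Equiv.Perm Y) :
    Set (Formula V × (Y → Bool) → Formula V × (Y → Bool)) :=
  Set.range fun (s : Γ) p => (flip s.1 p.1, p.2 ∘ σ s)

/-- The values of the output gate of the circuit for the formula `φ` and all guesses. -/
def table (C : Circuit (Clause V ⊕ Y) D L) (φ : Formula V) (w : Y → Bool) : D :=
  C.output (inputs (φ, w))

end Pool.Agent.H167R3.NR
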