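import Pool.Agent.H167R3.NR.Core
import Pool.Agent.H167R3.AG.Gen
import Pool.Agent.H522R3.ND.Kernel

set_option autoImplicit false
set_option linter.unusedSectionVars false

/-!
# Groups of sign changes, moved guesses, and wild gates
-/

namespace Pool.Agent.H167R3.NR

open Finset
open Pool.Agent.H525R2
open Pool.Agent.H525R2.Sym (Clause Satisfiable bits IsThreeCNF change Holds numTrue)
open Pool.Agent.H429R4.Sem (Circuit Formula flip flip_zero flip_add sysF flip_sysF
  card_range_le_of_factor card_range_le card_range_const_le card_range_pi_le add_self_sign)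
open Pool.Agent.H429R4.GC (value view wirings numWirings)
open Pool.Agent.H167R3.AG (numWild transforms loc card_loc_le view_eq_of_loc transforms_range)

variable {V Y D L : Type} [DecidableEq V]

/-- The sign change of a formula, with the guesses fixed. -/
def fl (s : V → ZMod 2) (p : Formula V × (Y → Bool)) : Formula V × (Y → Bool) := (flip s p.1, p.2)

theorem fl_add (s u : V → ZMod 2) (p : Formula V × (Y → Bool)) : fl (s + u) p = fl s (fl u p) := by
  unfold fl
  rw [flip_add]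

theorem loc_add (C : Circuit (Clause V ⊕ Y) D L) (P : C.Gate → Prop) (g : C.Gate)
    {s s' : V → ZMod 2} (u : V → ZMod 2) (h : loc inputs fl C P g s = loc inputs fl C P g s') :
    loc inputs fl C P g (s + u) = loc inputs fl C P g (s' + u) := by
  have key : ∀ s, loc inputs fl C P g (s + u) =
      ((loc inputs fl C P g s).1.map fun F φ => F (fl u φ),
        fun h => ((loc inputs fl C P g s).2 h).map fun F φ => F (fl u φ)) := by
    intro s
    unfold loc
    simp only [Option.map_map, Function.comp_def, fl_add]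
    refine congrArg (Prod.mk _) (funext fun h => ?_)
    split_ifs
    · simp only [Option.map_some]
    · rfl
  rw [key, key, h]

theorem card_bit_le [Finite V] (Γ : AddSubgroup (V → ZMod 2)) (β : Clause V ⊕ Y) :
    Nat.card (Set.range fun (s : Γ) (p : Formula V × (Y → Bool)) => inputs (fl s.1 p) β) ≤ 8 := by
  rcases β with c | v
  · refine le_trans ?_ (Pool.Agent.H429R4.Sem.card_bit_le Γ c)
    refine card_range_le_of_factor _ _ fun s s' h => funext fun p => ?_
    exact congrFun h p.1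
  · have h := card_range_const_le (S := Γ) (fun p : Formula V × (Y → Bool) => p.2 v)
    exact h.trans (by norm_num)

/-- Under the sign changes that fix the local data at all wild gates there are few wirings. -/
theorem exists_subgroup [Finite V] (C : Circuit (Clause V ⊕ Y) D L)
    (Γ : AddSubgroup (V → ZMod 2)) {m w : ℕ} (hm : 0 < m)
    (hw : ∀ g, Multiset.card (C.wires g) ≤ w) :
    ∃ Γ₀ : AddSubgroup (V → ZMod 2), Γ₀ ≤ Γ ∧
      numWirings inputs C (Set.range fun s : Γ₀ => fl s.1) ≤ C.size * (8 * m ^ w) ∧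
      Nat.card Γ ≤ (8 * m ^ w) ^ numWild inputs C (Set.range fun s : Γ => fl s.1) m *
        Nat.card Γ₀ := by
  classical
  let _ := C.finite
  set P : C.Gate → Prop := fun h => transforms inputs C (Set.range fun s : Γ => fl s.1) h ≤ m
    with hP
  let Γ₀ : AddSubgroup (V → ZMod 2) :=
    { carrier := {s | s ∈ Γ ∧ ∀ h, ¬ P h → loc inputs fl C P h s = loc inputs fl C P h 0}
      add_mem' := by
        rintro s s' ⟨hs, h1⟩ ⟨hs', h1'⟩
        refine ⟨Γ.add_mem hs hs', fun h hh => ?_⟩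
        rw [loc_add C P h s' (h1 h hh), zero_add, h1' h hh]
      zero_mem' := ⟨Γ.zero_mem, fun _ _ => rfl⟩
      neg_mem' := by
        rintro s ⟨hs, h1⟩
        have : -s = s := by
          rw [neg_eq_iff_add_eq_zero, add_self_sign]
        rw [this]
        exact ⟨hs, h1⟩ }
  have hPm : ∀ (Γ' : AddSubgroup (V → ZMod 2)), Γ' ≤ Γ → ∀ h, P h →
      Nat.card (Set.range fun (s : Γ') (x : Formula V × (Y → Bool)) =>
        value inputs C h (fl s.1 x)) ≤ m := by
    intro Γ' hΓ' h hh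
    have hh' : transforms inputs C (Set.range fun s : Γ => fl s.1) h ≤ m := hh
    rw [transforms_range (S := Γ) inputs (fun s : Γ => fl s.1) C h] at hh'
    refine le_trans ?_ hh'
    have hfin : Finite (Set.range fun (s : Γ) (x : Formula V × (Y → Bool)) =>
      value inputs C h (fl s.1 x)) := Set.finite_range _
    refine Nat.card_mono hfin ?_
    rintro _ ⟨s, rfl⟩
    exact ⟨⟨s.1, hΓ' s.2⟩, rfl⟩
  have hle : Γ₀ ≤ Γ := fun s hs => hs.1
  refine ⟨Γ₀, hle, ?_, ?_⟩
  · have hview : ∀ g, Nat.card (Set.range fun s : Γ₀ => view inputs C g (fl s.1)) ≤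
        8 * m ^ w := by
      intro g
      have h1 := card_range_le_of_factor (S := Γ₀) (fun s : Γ₀ => view inputs C g (fl s.1))
        (fun (s : Γ₀) => loc inputs (fun s : Γ₀ => fl s.1) C P g s) (by
          intro s s' hs
          refine view_eq_of_loc inputs (fun s : Γ₀ => fl s.1) C P g (fun h hh => ?_) hs
          have h2 := s.2.2 h hh
          have h3 := s'.2.2 h hh
          have h4 : loc inputs fl C P h s.1 = loc inputs fl C P h s'.1 := h2.trans h3.symm
          exact h4)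
      exact h1.trans (card_loc_le inputs (fun s : Γ₀ => fl s.1) C (by norm_num)
        (card_bit_le Γ₀) hm hw P (hPm Γ₀ hle) g)
    have hfin : ∀ g, Finite (Set.range fun s : Γ₀ => view inputs C g (fl s.1)) :=
      fun g => Set.finite_range _
    have hch : ∀ ξ : wirings inputs C (Set.range fun s : Γ₀ => fl s.1), ∃ g,
        ξ.1 ∈ Set.range fun s : Γ₀ => view inputs C g (fl s.1) := by
      rintro ⟨ξ, g, _, ⟨s, rfl⟩, h⟩
      exact ⟨g, s, h⟩
    choose γ hγ using hch
    have h1 : Nat.card (wirings inputs C (Set.range fun s : Γ₀ => fl s.1)) ≤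
        Nat.card (Σ g : C.Gate, Set.range fun s : Γ₀ => view inputs C g (fl s.1)) := by
      refine Nat.card_le_card_of_injective (fun ξ => ⟨γ ξ, ⟨ξ.1, hγ ξ⟩⟩) ?_
      intro ξ ξ' h
      have h2 : ∀ (x y : Σ g : C.Gate, Set.range fun s : Γ₀ => view inputs C g (fl s.1)),
          x = y → x.2.1 = y.2.1 := by
        rintro x y rfl
        rfl
      exact Subtype.ext (h2 _ _ h)
    refine h1.trans ?_
    rw [Nat.card_sigma]
    refine (sum_le_sum fun g _ => hview g).trans (le_of_eq ?_)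
    rw [sum_const, card_univ, smul_eq_mul]
    rfl
  · let W := {h : C.Gate // m < transforms inputs C (Set.range fun s : Γ => fl s.1) h}
    let k : Γ → (W → Option (Formula V × (Y → Bool) → Bool) ×
        (C.Gate → Option (Formula V × (Y → Bool) → D))) :=
      fun s h => loc inputs fl C P h.1 s.1
    have hk : Nat.card (Set.range k) ≤
        (8 * m ^ w) ^ numWild inputs C (Set.range fun s : Γ => fl s.1) m := by
      refine (card_range_pi_le (S := Γ) _).trans ?_
      refine (prod_le_prod' fun h _ => card_loc_le inputs (fun s : Γ => fl s.1) C (by norm_num)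
        (card_bit_le Γ) hm hw P (hPm Γ le_rfl) _).trans ?_
      rw [prod_const, card_univ]
      unfold numWild
      rw [Nat.card_eq_fintype_card]
    refine le_trans ?_ (Nat.mul_le_mul_right _ hk)
    have hfin : Finite (Set.range k) := Set.finite_range k
    have hch : ∀ x : Set.range k, ∃ s, k s = x.1 := fun x => x.2
    choose σ hσ using hch
    rw [← Nat.card_prod]
    refine Nat.card_le_card_of_injective
      (fun s : Γ => ((⟨k s, ⟨s, rfl⟩⟩ : Set.range k),
        (⟨s.1 + (σ ⟨k s, ⟨s, rfl⟩⟩).1, Γ.add_mem s.2 (σ _).2, fun h hh => ?_⟩ : Γ₀))) ?_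
    · have h1 : k (σ ⟨k s, ⟨s, rfl⟩⟩) = k s := hσ _
      have h2 : loc inputs fl C P h (σ ⟨k s, ⟨s, rfl⟩⟩).1 = loc inputs fl C P h s.1 :=
        congrFun h1 ⟨h, not_le.1 hh⟩
      rw [loc_add C P h (σ ⟨k s, ⟨s, rfl⟩⟩).1 h2.symm, add_self_sign]
    · intro s s' e
      rw [Prod.mk.injEq] at e
      have e1 : k s = k s' := congrArg Subtype.val e.1
      have e2 : s.1 + (σ ⟨k s, ⟨s, rfl⟩⟩).1 = s'.1 + (σ ⟨k s', ⟨s', rfl⟩⟩).1 :=
        congrArg Subtype.val e.2
      have e3 : (⟨k s, ⟨s, rfl⟩⟩ : Set.range k) = ⟨k s', ⟨s', rfl⟩⟩ := Subtype.ext e1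
      rw [e3] at e2
      exact Subtype.ext (add_right_cancel e2)

/-- A large group of sign changes acts arbitrarily on many letters, linearly. -/
theorem exists_lin [Fintype V] (Γ : AddSubgroup (V → ZMod 2)) {n : ℕ}
    (h : 2 ^ (3 * n) ≤ Nat.card Γ) :
    ∃ (ι : Fin 3 × Fin n ↪ V) (lin : (Fin 3 × Fin n → ZMod 2) →+ (V → ZMod 2)),
      (∀ u p, lin u (ι p) = u p) ∧ ∀ u, lin u ∈ Γ := by
  classical
  obtain ⟨I, hI, hcard⟩ := Sym.exists_shattered (Γ : Set (V → ZMod 2)) Γ.zero_mem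
    (fun s hs s' hs' => Γ.add_mem hs hs')
  have hI3 : 3 * n ≤ I.card := (Nat.pow_le_pow_iff_right (by norm_num)).1 (h.trans hcard)
  obtain ⟨e⟩ : Nonempty (Fin 3 × Fin n ↪ I) := by
    refine Function.Embedding.nonempty_of_card_le ?_
    rw [Fintype.card_prod, Fintype.card_fin, Fintype.card_fin, Fintype.card_coe]
    omega
  let ι : Fin 3 × Fin n ↪ V := e.trans (Function.Embedding.subtype _)
  have hι : ∀ p, ι p ∈ I := fun p => (e p).2
  let S : Submodule (ZMod 2) (V → ZMod 2) := AddSubgroup.toZModSubmodule 2 Γ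
  let R : S →ₗ[ZMod 2] (Fin 3 × Fin n → ZMod 2) :=
    (LinearMap.funLeft (ZMod 2) (ZMod 2) ι) ∘ₗ S.subtype
  have hR : LinearMap.range R = ⊤ := by
    rw [LinearMap.range_eq_top]
    intro u
    obtain ⟨s, hs, hs'⟩ := hI (Function.extend ι u 0)
    refine ⟨⟨s, hs⟩, funext fun p => ?_⟩
    change s (ι p) = u p
    rw [hs' _ (hι p), ι.injective.extend_apply]
  obtain ⟨k, hk⟩ := R.exists_rightInverse_of_surjective hR
  refine ⟨ι, (S.subtype ∘ₗ k).toAddMonoidHom, fun u p => ?_, fun u => (k u).2⟩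
  have h1 := congrFun (LinearMap.congr_fun hk u) p
  exact h1

theorem card_pow [Fintype V] (Γ : AddSubgroup (V → ZMod 2)) : ∃ r, Nat.card Γ = 2 ^ r := by
  have h1 : Nat.card Γ ∣ Nat.card (V → ZMod 2) := AddSubgroup.card_addSubgroup_dvd_card Γ
  rw [Nat.card_fun, Nat.card_eq_fintype_card (α := ZMod 2), ZMod.card] at h1
  obtain ⟨r, _, hr⟩ := (Nat.dvd_prime_pow Nat.prime_two).1 h1
  exact ⟨r, hr⟩

/-- The sign changes that fix all guesses. -/
theorem exists_kernel [Fintype V] (Γ : AddSubgroup (V → ZMod 2)) (σ : Γ → Equiv.Perm Y)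
    (hσ : ∀ a b, σ (a + b) = σ a * σ b) {g : ℕ} (hg : {y | ∃ a, σ a y ≠ y}.encard ≤ g) :
    ∃ D0 : AddSubgroup (V → ZMod 2), (∀ a ∈ D0, ∃ h : a ∈ Γ, σ ⟨a, h⟩ = 1) ∧
      Nat.card Γ ≤ 2 ^ (g / 2) * Nat.card D0 := by
  obtain ⟨r, hr⟩ := card_pow Γ
  have hfin : {y | ∃ a, σ a y ≠ y}.Finite := Set.finite_of_encard_le_coe hg
  have hn : {y | ∃ a, σ a y ≠ y}.ncard ≤ g := by
    rw [← hfin.cast_ncard_eq] at hg
    exact_mod_cast hg
  obtain ⟨D0, r0, h1, h2, h3, -⟩ := H522R3.ND.kernel_card Γ r hr σ hσ g hfin hn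
  refine ⟨D0, h1, ?_⟩
  rw [hr, h2, ← pow_add]
  exact Nat.pow_le_pow_right (by norm_num) (by omega)

theorem range_subset_moves {Γ D0 : AddSubgroup (V → ZMod 2)} (σ : Γ → Equiv.Perm Y)
    (h : ∀ a ∈ D0, ∃ h : a ∈ Γ, σ ⟨a, h⟩ = 1) :
    (Set.range fun s : D0 => fl (Y := Y) s.1) ⊆ moves σ := by
  rintro _ ⟨s, rfl⟩
  obtain ⟨h1, h2⟩ := h s.1 s.2
  refine ⟨⟨s.1, h1⟩, funext fun p => ?_⟩
  simp only [h2]
  rfl

theorem wirings_mono {X B D L : Type} (enc : X → B → Bool) (C : Circuit B D L)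
    {A A' : Set (X → X)} (hA : A ⊆ A') (hfin : A'.Finite) :
    numWirings enc C A ≤ numWirings enc C A' := by
  have := C.finite
  have h1 : (wirings enc C A').Finite := by
    have h2 : wirings enc C A' = Set.image2 (fun g f => view enc C g f) Set.univ A' := by
      ext ξ
      constructor
      · rintro ⟨g, f, hf, rfl⟩
        exact ⟨g, Set.mem_univ _, f, hf, rfl⟩
      · rintro ⟨g, -, f, hf, rfl⟩
        exact ⟨g, f, hf, rfl⟩
    rw [h2]
    exact Set.Finite.image2 _ Set.finite_univ hfin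
  refine Nat.card_mono h1 ?_
  rintro ξ ⟨g, f, hf, rfl⟩
  exact ⟨g, f, hA hf, rfl⟩

theorem numWild_mono {X B D L : Type} (enc : X → B → Bool) (C : Circuit B D L)
    {A A' : Set (X → X)} (hA : A ⊆ A') (hfin : A'.Finite) (m : ℕ) :
    numWild enc C A m ≤ numWild enc C A' m := by
  have := C.finite
  have h1 : ∀ g, transforms enc C A g ≤ transforms enc C A' g := by
    intro g
    unfold transforms
    have h2 : {F : X → D | ∃ f ∈ A', F = fun x => value enc C g (f x)}.Finite := by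
      have h3 : {F : X → D | ∃ f ∈ A', F = fun x => value enc C g (f x)} =
          (fun (f : X → X) x => value enc C g (f x)) '' A' := by
        ext F
        constructor
        · rintro ⟨f, hf, rfl⟩
          exact ⟨f, hf, rfl⟩
        · rintro ⟨f, hf, rfl⟩
          exact ⟨f, hf, rfl⟩
      rw [h3]
      exact hfin.image _
    refine Nat.card_mono h2 ?_
    rintro F ⟨f, hf, rfl⟩
    exact ⟨f, hA hf, rfl⟩
  unfold numWild
  exact Nat.card_le_card_of_injective
    (fun g : {g : C.Gate // m < transforms enc C A g} =>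
      (⟨g.1, lt_of_lt_of_le g.2 (h1 g.1)⟩ : {g : C.Gate // m < transforms enc C A' g}))
    (fun g g' e => by
      rw [Subtype.mk.injEq] at e
      exact Subtype.ext e)

theorem moves_finite [Finite V] {Γ : AddSubgroup (V → ZMod 2)} (σ : Γ → Equiv.Perm Y) :
    (moves σ).Finite := Set.finite_range _

theorem act_range_subset {D0 : AddSubgroup (V → ZMod 2)} {n : ℕ}
    (lin : (Fin 3 × Fin n → ZMod 2) →+ (V → ZMod 2)) (h : ∀ u, lin u ∈ D0) :
    Set.range (act (Y := Y) lin) ⊆ Set.range fun s : D0 => fl (Y := Y) s.1 := by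
  rintro _ ⟨u, rfl⟩
  exact ⟨⟨lin u, h u⟩, rfl⟩

/-- **Few wirings.** -/
theorem few_wirings [Fintype V] (Γ : AddSubgroup (V → ZMod 2)) (σ : Γ → Equiv.Perm Y)
    (hσ : ∀ a b, σ (a + b) = σ a * σ b) {g n : ℕ} (hg : {y | ∃ a, σ a y ≠ y}.encard ≤ g)
    (hn : 2 ^ (3 * n + g / 2) ≤ Nat.card Γ) :
    ∃ ι : Fin 3 × Fin n ↪ V, ∀ (Δ m : ℕ) (D L : Type) (C : Circuit (Clause V ⊕ Y) D L)
      (Acc : ((Y → Bool) → D) → Prop), 0 < Δ → 2 ≤ m → 256 * m ^ 2 * Δ ^ 2 ≤ n →
      (∀ φ : Formula V, Satisfiable φ.1 → ¬ Acc (table C φ)) →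
      numWirings inputs C (moves σ) ≤ 2 ^ (n / (256 * m ^ 2 * Δ ^ 2)) →
      ({y : Fin (Δ * n) → Fin 3 → Fin n | ∃ b, Acc (table C (sysF ι y b))}.ncard : ℝ) ≤
        32 / m * Fintype.card (Fin (Δ * n) → Fin 3 → Fin n) := by
  obtain ⟨D0, hD0, hcard⟩ := exists_kernel Γ σ hσ hg
  have h1 : 2 ^ (3 * n) ≤ Nat.card D0 := by
    have h2 := hn.trans hcard
    rw [pow_add, mul_comm] at h2
    exact Nat.le_of_mul_le_mul_left h2 (by positivity)
  obtain ⟨ι, lin, hlin, hmem⟩ := exists_lin D0 h1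
  refine ⟨ι, fun Δ m D L C Acc hΔ hm hnn hsound hW => ?_⟩
  refine card_refuted_le ι lin hlin hΔ hm hnn C (le_trans ?_ hW) Acc hsound
  exact wirings_mono inputs C ((act_range_subset lin hmem).trans (range_subset_moves σ hD0))
    (moves_finite σ)

/-- **Wild gates.** -/
theorem wild_gates {ε : ℝ} (hε : 0 < ε) : ∃ K : ℕ, ∀ (V Y D L : Type) [Fintype V] [DecidableEq V]
    (Γ : AddSubgroup (V → ZMod 2)) (σ : Γ → Equiv.Perm Y) (g : ℕ)
    (C : Circuit (Clause V ⊕ Y) D L) (Acc : ((Y → Bool) → D) → Prop) (m w : ℕ),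
    (∀ a b, σ (a + b) = σ a * σ b) → {y | ∃ a, σ a y ≠ y}.encard ≤ g → 0 < m →
    (∀ g, Multiset.card (C.wires g) ≤ w) →
    (∀ φ : Formula V, Satisfiable φ.1 → ¬ Acc (table C φ)) →
    (∀ φ : Formula V, 0 < φ.1.card → (∀ α, (numTrue α φ.1 : ℝ) ≤ (7 / 8 + ε) * φ.1.card) →
      Acc (table C φ)) →
    Nat.card Γ ≤ 2 ^ (g / 2) * (8 * m ^ w) ^ numWild inputs C (moves σ) m *
      (2 * C.size * (8 * m ^ w)) ^ K := by
  obtain ⟨Δ, hΔε⟩ : ∃ Δ : ℕ, 2 / ε ^ 2 ≤ Δ := exists_nat_ge _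
  have hΔ0 : 0 < Δ := by
    have h1 : (0 : ℝ) < 2 / ε ^ 2 := by positivity
    exact_mod_cast lt_of_lt_of_le h1 hΔε
  set K₀ := 256 * 64 ^ 2 * Δ ^ 2 with hK₀
  have hK₀pos : 0 < K₀ := by
    rw [hK₀]
    positivity
  refine ⟨3 * K₀, fun V Y D L _ _ Γ σ g C Acc m w hσ hg hm hw hsound hfar => ?_⟩
  obtain ⟨D0, hD0, hcard⟩ := exists_kernel Γ σ hσ hg
  obtain ⟨Γ₀, hle, hW, hcard'⟩ := exists_subgroup C D0 hm hw
  have hwild : numWild inputs C (Set.range fun s : D0 => fl (Y := Y) s.1) m ≤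
      numWild inputs C (moves σ) m :=
    numWild_mono inputs C (range_subset_moves σ hD0) (moves_finite σ) m
  have hpos : 0 < 8 * m ^ w := by positivity
  have h1 : Nat.card Γ ≤ 2 ^ (g / 2) * (8 * m ^ w) ^ numWild inputs C (moves σ) m *
      Nat.card Γ₀ := by
    refine hcard.trans ?_
    rw [mul_assoc]
    refine Nat.mul_le_mul_left _ (hcard'.trans (Nat.mul_le_mul_right _ ?_))
    exact Nat.pow_le_pow_right hpos hwild
  refine h1.trans (Nat.mul_le_mul_left _ ?_)
  by_contra hcon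
  rw [not_le] at hcon
  set T := C.size * (8 * m ^ w) with hT
  have hsize : 0 < C.size := by
    let _ := C.finite
    have : 0 < Fintype.card C.Gate := Fintype.card_pos_iff.2 ⟨C.out⟩
    exact this
  have hT0 : T ≠ 0 := by
    rw [hT]
    positivity
  set n := K₀ * (Nat.log 2 T + 1) with hn
  have hn1 : K₀ ≤ n := Nat.le_mul_of_pos_right _ (by omega)
  have hn2 : n / K₀ = Nat.log 2 T + 1 := Nat.mul_div_cancel_left _ hK₀pos
  have h2 : 2 ^ (3 * n) ≤ Nat.card Γ₀ := by
    refine le_trans ?_ hcon.le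
    have h3 : 3 * n = (Nat.log 2 T + 1) * (3 * K₀) := by
      rw [hn]
      ring
    rw [h3, pow_mul]
    refine Nat.pow_le_pow_left ?_ _
    rw [pow_succ, mul_comm, mul_assoc, ← hT]
    exact Nat.mul_le_mul_left 2 (Nat.pow_log_le_self 2 hT0)
  obtain ⟨ι, lin, hlin, hmem⟩ := exists_lin Γ₀ h2
  have hW' : numWirings inputs C (Set.range (act (Y := Y) lin)) ≤ 2 ^ (n / K₀) := by
    rw [hn2]
    refine le_trans ?_ (Nat.lt_pow_succ_log_self (by norm_num) T).le
    exact (wirings_mono inputs C (act_range_subset lin hmem) (Set.finite_range _)).trans hW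
  obtain ⟨φ, h3, h4, h5⟩ := exists_far_not_refuted hε ι lin hlin hΔ0 hΔε hn1 C hW' Acc hsound
  exact h5 (hfar φ h3 h4)

/-- Few right-hand sides are satisfiable. -/
theorem card_satisfiable_le {n M : ℕ} (ι : Fin 3 × Fin n ↪ V) (y : Fin M → Fin 3 → Fin n) :
    {b : Fin M → ZMod 2 | Satisfiable (sysF ι y b).1}.ncard ≤ 2 ^ (3 * n) := by
  have h1 : {b : Fin M → ZMod 2 | Satisfiable (sysF ι y b).1} ⊆
      Set.range fun (u : Fin 3 × Fin n → ZMod 2) (j : Fin M) => ∑ a, u (a, y j a) := by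
    rintro b ⟨α, hα⟩
    refine ⟨fun p => α (ι p), funext fun j => ?_⟩
    exact (holds_sysF_iff ι y b α).1 hα j
  refine (Set.ncard_le_ncard h1 (Set.toFinite _)).trans ?_
  rw [← Set.image_univ]
  refine (Set.ncard_image_le (Set.toFinite _)).trans (le_of_eq ?_)
  rw [Set.ncard_univ, Nat.card_fun, Nat.card_eq_fintype_card (α := ZMod 2), ZMod.card,
    Nat.card_eq_fintype_card, Fintype.card_prod, Fintype.card_fin, Fintype.card_fin]

end Pool.Agent.H167R3.NR
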